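import Pool.Agent.helper84.NR.Spec

set_option autoImplicit false

namespace Pool.Agent.helper84.NR

open scoped Classical
open Finset

theorem LIN_mul {V F : Type} (M : Cyc V F) (f : F) (r q : ℕ) : M.bd f (r + q * M.len f) = M.bd f r := by
  induction q with
  | zero => simp
  | succ q ih =>
    have h : r + (q + 1) * M.len f = (r + q * M.len f) + M.len f := by ring
    rw [h, M.per, ih]

theorem LIN_mod {V F : Type} (M : Cyc V F) (f : F) (k : ℕ) : M.bd f k = M.bd f (k % M.len f) := by
  have h := LIN_mul M f (k % M.len f) (k / M.len f)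
  rw [← h]
  congr 1
  rw [mul_comm]
  exact (Nat.mod_add_div k (M.len f)).symm

theorem LIN_eq {V F : Type} (M : Cyc V F) (f : F) (i j : ℕ) :
    M.bd f i = M.bd f j ↔ i ≡ j [MOD M.len f] := by
  have hn : 0 < M.len f := lt_of_lt_of_le (by norm_num) (M.three f)
  constructor
  · intro h
    rw [LIN_mod M f i, LIN_mod M f j] at h
    exact M.inj f _ _ (Nat.mod_lt _ hn) (Nat.mod_lt _ hn) h
  · intro h
    rw [LIN_mod M f i, LIN_mod M f j]
    have h' : i % M.len f = j % M.len f := h
    rw [h']

theorem LIN_succ_ne {V F : Type} (M : Cyc V F) (f : F) (k d : ℕ) (h0 : 0 < d) (h1 : d < M.len f) :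
    M.bd f k ≠ M.bd f (k + d) := by
  intro h
  rw [LIN_eq] at h
  have h2 : k + 0 ≡ k + d [MOD M.len f] := by simpa using h
  have h3 := Nat.ModEq.add_left_cancel' k h2
  have h4 : M.len f ∣ d := (Nat.modEq_zero_iff_dvd).1 h3.symm
  exact absurd (Nat.le_of_dvd h0 h4) (by omega)

theorem LIN_even {V F : Type} [Fintype V] (M : Cyc V F) (f : F) (v : V) :
    (((univ.filter (fun e : Sym2 V => OnE M f e ∧ v ∈ e)).card : ℕ) : ZMod 2) = 0 := by
  have hn := M.three f
  by_cases hv : OnV M f v
  · obtain ⟨k, rfl⟩ := hv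
    have hset : (univ.filter (fun e : Sym2 V => OnE M f e ∧ M.bd f k ∈ e)) =
        {s(M.bd f k, M.bd f (k + 1)), s(M.bd f (k + (M.len f - 1)), M.bd f (k + (M.len f - 1) + 1))} := by
      have hk : M.bd f (k + (M.len f - 1) + 1) = M.bd f k := by
        have : k + (M.len f - 1) + 1 = k + M.len f := by omega
        rw [this, M.per]
      ext e
      simp only [mem_filter, mem_univ, true_and, mem_insert, mem_singleton]
      constructor
      · rintro ⟨⟨j, rfl⟩, h⟩
        rw [Sym2.mem_iff] at h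
        rcases h with h | h
        · left
          have h1 : M.bd f (k + 1) = M.bd f (j + 1) := by
            rw [LIN_eq] at h ⊢
            exact h.add_right 1
          rw [h, h1]
        · right
          have h1 : M.bd f (k + (M.len f - 1)) = M.bd f j := by
            rw [LIN_eq]
            apply Nat.ModEq.add_right_cancel' 1
            rw [← LIN_eq, hk, h]
          rw [h1, hk, h]
      · rintro (rfl | rfl)
        · exact ⟨⟨k, rfl⟩, by simp⟩
        · exact ⟨⟨_, rfl⟩, by rw [hk]; simp⟩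
    rw [hset, card_pair]
    · decide
    · intro h
      have hk : M.bd f (k + (M.len f - 1) + 1) = M.bd f k := by
        have : k + (M.len f - 1) + 1 = k + M.len f := by omega
        rw [this, M.per]
      rw [hk, Sym2.eq_iff] at h
      rcases h with ⟨h, _⟩ | ⟨_, h⟩
      · exact LIN_succ_ne M f k (M.len f - 1) (by omega) (by omega) h
      · have h2 : k + (M.len f - 1) = (k + 1) + (M.len f - 2) := by omega
        rw [h2] at h
        exact LIN_succ_ne M f (k + 1) (M.len f - 2) (by omega) (by omega) h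
  · have : (univ.filter (fun e : Sym2 V => OnE M f e ∧ v ∈ e)) = ∅ := by
      apply filter_eq_empty_iff.2
      rintro e - ⟨⟨j, rfl⟩, h⟩
      rw [Sym2.mem_iff] at h
      rcases h with h | h
      · exact hv ⟨_, h.symm⟩
      · exact hv ⟨_, h.symm⟩
    rw [this]
    simp

/-- The transposed matrix of the boundary on edges outside `U`, vertices outside `W`. -/
noncomputable def LIN_B {V F : Type} [Fintype V] (M : Cyc V F) (U : Sym2 V → Prop) (W : V → Prop) :
    ({v : V // ¬ W v} → ZMod 2) →ₗ[ZMod 2] ({e : Sym2 V // IsE M e ∧ ¬ U e} → ZMod 2) where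
  toFun φ e := ∑ v : {v : V // ¬ W v}, if v.1 ∈ e.1 then φ v else 0
  map_add' φ ψ := by
    funext e
    simp only [Pi.add_apply]
    rw [← sum_add_distrib]
    refine sum_congr rfl fun v _ => ?_
    split_ifs <;> simp
  map_smul' c φ := by
    funext e
    simp only [Pi.smul_apply, smul_eq_mul, RingHom.id_apply]
    rw [mul_sum]
    refine sum_congr rfl fun v _ => ?_
    split_ifs <;> simp

noncomputable def LIN_A {V F : Type} [Fintype V] (M : Cyc V F) (U : Sym2 V → Prop) :
    ({e : Sym2 V // IsE M e ∧ ¬ U e} → ZMod 2) →ₗ[ZMod 2] (F → ZMod 2) where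
  toFun c f := ∑ e : {e : Sym2 V // IsE M e ∧ ¬ U e}, if OnE M f e.1 then c e else 0
  map_add' φ ψ := by
    funext e
    simp only [Pi.add_apply]
    rw [← sum_add_distrib]
    refine sum_congr rfl fun v _ => ?_
    split_ifs <;> simp
  map_smul' c φ := by
    funext e
    simp only [Pi.smul_apply, smul_eq_mul, RingHom.id_apply]
    rw [mul_sum]
    refine sum_congr rfl fun v _ => ?_
    split_ifs <;> simp

theorem LIN_AB {V F : Type} [Fintype V] (M : Cyc V F) (U : Sym2 V → Prop) (W : V → Prop)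
    (hUW : ∀ e, U e → ∀ v ∈ e, W v) (φ : {v : V // ¬ W v} → ZMod 2) :
    LIN_A M U (LIN_B M U W φ) = 0 := by
  funext f
  show (∑ e : {e : Sym2 V // IsE M e ∧ ¬ U e}, if OnE M f e.1 then
    (∑ v : {v : V // ¬ W v}, if v.1 ∈ e.1 then φ v else 0) else 0) = 0
  have h1 : (∑ e : {e : Sym2 V // IsE M e ∧ ¬ U e}, if OnE M f e.1 then
      (∑ v : {v : V // ¬ W v}, if v.1 ∈ e.1 then φ v else 0) else 0) =
      ∑ v : {v : V // ¬ W v}, ∑ e : {e : Sym2 V // IsE M e ∧ ¬ U e},
        if OnE M f e.1 ∧ v.1 ∈ e.1 then φ v else 0 := by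
    rw [sum_comm]
    refine sum_congr rfl fun e _ => ?_
    by_cases h : OnE M f e.1
    · simp [h]
    · simp [h]
  rw [h1]
  refine sum_eq_zero fun v _ => ?_
  have h2 : (∑ e ∈ univ.filter (fun e : Sym2 V => IsE M e ∧ ¬ U e), if OnE M f e ∧ v.1 ∈ e then φ v else 0) =
      ∑ e : {e : Sym2 V // IsE M e ∧ ¬ U e}, if OnE M f e.1 ∧ v.1 ∈ e.1 then φ v else 0 :=
    sum_subtype (univ.filter (fun e : Sym2 V => IsE M e ∧ ¬ U e)) (p := fun e => IsE M e ∧ ¬ U e)
      (fun e => by simp) (fun e => if OnE M f e ∧ v.1 ∈ e then φ v else 0)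
  rw [← h2, ← sum_filter, sum_const]
  have h3 : ((univ.filter (fun e : Sym2 V => IsE M e ∧ ¬ U e)).filter (fun e => OnE M f e ∧ v.1 ∈ e)) =
      univ.filter (fun e : Sym2 V => OnE M f e ∧ v.1 ∈ e) := by
    ext e
    simp only [mem_filter, mem_univ, true_and]
    constructor
    · rintro ⟨_, h⟩
      exact h
    · intro h
      exact ⟨⟨⟨f, h.1⟩, fun hu => v.2 (hUW e hu v.1 h.2)⟩, h⟩
  rw [h3, nsmul_eq_mul, LIN_even, zero_mul]

theorem LIN_Binj {V F : Type} [Fintype V] (M : PMap V F) (U : Sym2 V → Prop) (W : V → Prop)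
    (hW : ∃ v, W v) (hUW : ∀ e, U e → ∀ v ∈ e, W v) : Function.Injective (LIN_B M.toCyc U W) := by
  rw [injective_iff_map_eq_zero]
  intro φ hφ
  set ψ : V → ZMod 2 := fun v => if h : ¬ W v then φ ⟨v, h⟩ else 0 with hψ
  have hψW : ∀ v, W v → ψ v = 0 := by
    intro v hv
    simp [hψ, hv]
  -- adjacent vertices
  have hadj : ∀ f k, ψ (M.bd f k) = ψ (M.bd f (k + 1)) := by
    intro f k
    have hn := M.three f
    by_cases hu : U s(M.bd f k, M.bd f (k + 1))
    · rw [hψW _ (hUW _ hu _ (by simp)), hψW _ (hUW _ hu _ (by simp))]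
    · have hne : M.bd f k ≠ M.bd f (k + 1) := LIN_succ_ne M.toCyc f k 1 (by omega) (by omega)
      have h1 := congrFun hφ ⟨s(M.bd f k, M.bd f (k + 1)), ⟨f, k, rfl⟩, hu⟩
      have h2 : (∑ v : {v : V // ¬ W v}, if v.1 ∈ s(M.bd f k, M.bd f (k + 1)) then φ v else 0) = 0 := h1
      have h3 : (∑ v ∈ univ.filter (fun v : V => ¬ W v), if v ∈ s(M.bd f k, M.bd f (k + 1)) then ψ v else 0) =
          ∑ v : {v : V // ¬ W v}, if v.1 ∈ s(M.bd f k, M.bd f (k + 1)) then ψ v.1 else 0 :=
        sum_subtype (univ.filter (fun v : V => ¬ W v)) (p := fun v => ¬ W v)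
          (fun e => by simp) (fun v => if v ∈ s(M.bd f k, M.bd f (k + 1)) then ψ v else 0)
      have h4 : (∑ v : {v : V // ¬ W v}, if v.1 ∈ s(M.bd f k, M.bd f (k + 1)) then φ v else 0) =
          ∑ v : {v : V // ¬ W v}, if v.1 ∈ s(M.bd f k, M.bd f (k + 1)) then ψ v.1 else 0 := by
        refine sum_congr rfl fun v _ => ?_
        have : ψ v.1 = φ v := by
          simp only [hψ]
          rw [dif_pos v.2]
        rw [this]
      rw [h4, ← h3, sum_filter] at h2
      have h5 : (∑ v : V, if ¬ W v then (if v ∈ s(M.bd f k, M.bd f (k + 1)) then ψ v else 0) else 0) =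
          ∑ v ∈ ({M.bd f k, M.bd f (k + 1)} : Finset V), ψ v := by
        rw [← sum_filter_add_sum_filter_not univ (fun v => v ∈ ({M.bd f k, M.bd f (k + 1)} : Finset V))]
        have h6 : (∑ v ∈ univ.filter (fun v => ¬ v ∈ ({M.bd f k, M.bd f (k + 1)} : Finset V)),
            if ¬ W v then (if v ∈ s(M.bd f k, M.bd f (k + 1)) then ψ v else 0) else 0) = 0 := by
          refine sum_eq_zero fun v hv => ?_
          have hv' : ¬ v ∈ s(M.bd f k, M.bd f (k + 1)) := by
            intro h
            rw [Sym2.mem_iff] at h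
            simp only [mem_filter, mem_univ, true_and, mem_insert, mem_singleton] at hv
            exact hv h
          simp [hv']
        rw [h6, add_zero]
        have h7 : univ.filter (fun v => v ∈ ({M.bd f k, M.bd f (k + 1)} : Finset V)) =
            ({M.bd f k, M.bd f (k + 1)} : Finset V) := by
          ext v; simp
        rw [h7]
        refine sum_congr rfl fun v hv => ?_
        have hv' : v ∈ s(M.bd f k, M.bd f (k + 1)) := by
          rw [Sym2.mem_iff]
          simpa using hv
        by_cases hw : W v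
        · rw [hψW v hw]; simp
        · simp only [hw, not_false_eq_true, if_true, hv']
      rw [h5, sum_pair hne] at h2
      exact CharTwo.add_eq_zero.1 h2
  have hface : ∀ f k, ψ (M.bd f k) = ψ (M.bd f 0) := by
    intro f k
    induction k with
    | zero => rfl
    | succ k ih => rw [← hadj, ih]
  have hclosed := M.conn {f | ψ (M.bd f 0) = 0} (by
    rintro e f g ⟨k, rfl⟩ ⟨l, hl⟩ hf
    have hk : M.bd f k ∈ s(M.bd g l, M.bd g (l + 1)) := by
      rw [← hl]; simp
    rw [Sym2.mem_iff] at hk
    have h0 : ψ (M.bd f k) = 0 := by rw [hface]; exact hf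
    show ψ (M.bd g 0) = 0
    rcases hk with hk | hk
    · rw [← hface g l, ← hk, h0]
    · rw [← hface g (l + 1), ← hk, h0])
  obtain ⟨w, hw⟩ := hW
  obtain ⟨f0, k0, hk0⟩ := M.cover w
  have hf0 : ψ (M.bd f0 0) = 0 := by
    rw [← hface f0 k0, hk0]
    exact hψW w hw
  have hall : ∀ v, ψ v = 0 := by
    intro v
    obtain ⟨g, l, hl⟩ := M.cover v
    have h := hclosed f0 g hf0
    have h' : ψ (M.bd g 0) = 0 := h
    rw [← hl, hface, h']
  funext v
  have h := hall v.1
  simp only [hψ] at h
  rw [dif_pos v.2] at h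
  exact h

theorem LIN_single {V F : Type} [Fintype V] [Fintype F] (M : PMap V F) (U : Sym2 V → Prop) (f g : F)
    (h : lk M U f g) : (Pi.single f 1 - Pi.single g 1 : F → ZMod 2) ∈ LinearMap.range (LIN_A M.toCyc U) := by
  obtain ⟨e, hU, hf, hg⟩ := h
  by_cases hfg : f = g
  · rw [hfg, sub_self]
    exact Submodule.zero_mem _
  · refine ⟨Pi.single ⟨e, ⟨f, hf⟩, hU⟩ 1, ?_⟩
    funext k
    show (∑ e' : {e : Sym2 V // IsE M.toCyc e ∧ ¬ U e}, if OnE M.toCyc k e'.1 then
      (Pi.single (⟨e, ⟨f, hf⟩, hU⟩ : {e : Sym2 V // IsE M.toCyc e ∧ ¬ U e}) (1 : ZMod 2) :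
        {e : Sym2 V // IsE M.toCyc e ∧ ¬ U e} → ZMod 2) e' else 0) = _
    rw [sum_eq_single (⟨e, ⟨f, hf⟩, hU⟩ : {e : Sym2 V // IsE M.toCyc e ∧ ¬ U e})]
    · simp only [Pi.single_eq_same, Pi.sub_apply]
      obtain ⟨g', hg', _, hall⟩ := M.two e f hf
      have hgg : g = g' := by
        rcases hall g hg with h | h
        · exact absurd h.symm hfg
        · exact h
      by_cases hk : OnE M.toCyc k e
      · rw [if_pos hk]
        rcases hall k hk with h | h
        · subst h
          rw [Pi.single_eq_same, Pi.single_eq_of_ne hfg, sub_zero]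
        · rw [h, ← hgg, Pi.single_eq_same, Pi.single_eq_of_ne (Ne.symm hfg)]
          decide
      · rw [if_neg hk]
        have h1 : k ≠ f := fun h => hk (h ▸ hf)
        have h2 : k ≠ g := fun h => hk (h ▸ hg)
        rw [Pi.single_eq_of_ne h1, Pi.single_eq_of_ne h2, sub_zero]
    · intro b _ hb
      rw [Pi.single_eq_of_ne hb]
      simp
    · intro h
      exact absurd (mem_univ _) h

theorem LIN_rank {V F : Type} [Fintype V] [Fintype F] (M : PMap V F) (U : Sym2 V → Prop) :
    Fintype.card F ≤ Module.finrank (ZMod 2) (LinearMap.range (LIN_A M.toCyc U)) + Nat.card (Quot (lk M U)) := by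
  have : Fintype (Quot (lk M U)) := Fintype.ofFinite _
  set R := LinearMap.range (LIN_A M.toCyc U) with hR
  set b : Quot (lk M U) → (F → ZMod 2) := fun q => Pi.single (Quot.out q) 1 with hb
  set T := Submodule.span (ZMod 2) (Set.range b) with hT
  have hlift : ∀ f : F, (Pi.single f 1 - b (Quot.mk _ f) : F → ZMod 2) ∈ R := by
    intro f
    set c : Quot (lk M U) → ((F → ZMod 2) ⧸ R) :=
      Quot.lift (fun f => Submodule.Quotient.mk (Pi.single f 1)) (by
        intro f g hfg
        exact (Submodule.Quotient.eq R).2 (LIN_single M U f g hfg)) with hc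
    have h1 : c (Quot.mk _ f) = c (Quot.mk _ (Quot.out (Quot.mk (lk M U) f))) := by
      rw [Quot.out_eq]
    exact (Submodule.Quotient.eq R).1 h1
  have htop : R ⊔ T = ⊤ := by
    rw [eq_top_iff]
    intro x _
    rw [pi_eq_sum_univ' x]
    refine Submodule.sum_mem _ fun f _ => Submodule.smul_mem _ _ ?_
    have h2 : (fun j => if j = f then (1 : ZMod 2) else 0) = Pi.single f 1 := by
      funext j
      by_cases h : j = f
      · subst h; simp
      · simp [h]
    have h3 : (Pi.single f 1 : F → ZMod 2) ∈ R ⊔ T := by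
      have h4 : (Pi.single f 1 : F → ZMod 2) = (Pi.single f 1 - b (Quot.mk _ f)) + b (Quot.mk _ f) := by
        rw [sub_add_cancel]
      rw [h4]
      exact Submodule.add_mem_sup (hlift f) (Submodule.subset_span ⟨_, rfl⟩)
    exact h3
  have h5 : Module.finrank (ZMod 2) (R ⊔ T : Submodule (ZMod 2) (F → ZMod 2)) = Fintype.card F := by
    rw [htop, finrank_top, Module.finrank_fintype_fun_eq_card]
  have h6 := Submodule.finrank_add_le_finrank_add_finrank R T
  have h7 : Module.finrank (ZMod 2) T ≤ Fintype.card (Quot (lk M U)) := finrank_range_le_card b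
  rw [Nat.card_eq_fintype_card]
  rw [← h5]
  omega

theorem LIN : LIN_stmt := by
  intro V F _ _ M U W hUE hW hUW
  have h1 := LIN_rank M U
  have h2 : Module.finrank (ZMod 2) (LinearMap.range (LIN_A M.toCyc U)) +
      Module.finrank (ZMod 2) (LinearMap.ker (LIN_A M.toCyc U)) =
      Fintype.card {e : Sym2 V // IsE M.toCyc e ∧ ¬ U e} := by
    rw [LinearMap.finrank_range_add_finrank_ker, Module.finrank_fintype_fun_eq_card]
  have h3 : Module.finrank (ZMod 2) (LinearMap.range (LIN_B M.toCyc U W)) = Fintype.card {v : V // ¬ W v} := by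
    rw [LinearMap.finrank_range_of_inj (LIN_Binj M U W hW hUW), Module.finrank_fintype_fun_eq_card]
  have h4 : LinearMap.range (LIN_B M.toCyc U W) ≤ LinearMap.ker (LIN_A M.toCyc U) := by
    rintro _ ⟨φ, rfl⟩
    exact LIN_AB M.toCyc U W hUW φ
  have h5 := Submodule.finrank_mono h4
  have h6 : Fintype.card {v : V // ¬ W v} + (univ.filter (fun v => W v)).card = Fintype.card V := by
    rw [Fintype.card_subtype, add_comm, card_filter_add_card_filter_not, card_univ]
  have h7 : Fintype.card {e : Sym2 V // IsE M.toCyc e ∧ ¬ U e} + (univ.filter (fun e => U e)).card =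
      (univ.filter (fun e : Sym2 V => IsE M.toCyc e)).card := by
    rw [Fintype.card_subtype]
    have h8 := card_filter_add_card_filter_not (s := univ.filter (fun e : Sym2 V => IsE M.toCyc e)) (fun e => U e)
    rw [filter_filter, filter_filter] at h8
    have h9 : (univ.filter (fun e : Sym2 V => IsE M.toCyc e ∧ U e)) = univ.filter (fun e => U e) := by
      ext e
      simp only [mem_filter, mem_univ, true_and]
      exact ⟨fun h => h.2, fun h => ⟨hUE e h, h⟩⟩
    rw [h9] at h8
    omega
  unfold chi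
  omega

end Pool.Agent.helper84.NR
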